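import Pool.Agent.Helper21.IM.Par

/-!
# Project LA (MP_599705_an): the mean of `Re (E conj (v E'))` over a circle is nonnegative
-/

set_option autoImplicit false

namespace Pool.Agent.Helper73.LA

open Complex Metric Set Real

private theorem Ener_ofRe {f : ℂ → ℂ} {ρ : ℝ} (hf : CircleIntegrable f 0 ρ) :
    circleAverage (fun z => (f z).re) 0 ρ = (circleAverage f 0 ρ).re := by
  have := ContinuousLinearMap.circleAverage_comp_comm Complex.reCLM hf
  exact this

theorem energy_nonneg {E : ℂ → ℂ} {R ρ : ℝ} (h0 : 0 < ρ) (h1 : ρ < R)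
    (hE : DifferentiableOn ℂ E (ball 0 R)) :
    0 ≤ circleAverage (fun v => (E v * (starRingEnd ℂ) (v * deriv E v)).re) 0 ρ := by
  have hR : 0 < R := h0.trans h1
  have hRc : (R : ℂ) ≠ 0 := by exact_mod_cast hR.ne'
  -- scaling
  set P : ℂ → ℂ := fun z => E (R * z) with hP
  have hmap : ∀ z ∈ ball (0 : ℂ) 1, (R : ℂ) * z ∈ ball (0 : ℂ) R := by
    intro z hz
    rw [mem_ball_zero_iff] at hz ⊢
    rw [norm_mul, Complex.norm_real, Real.norm_of_nonneg hR.le]
    nlinarith
  have hPd : DifferentiableOn ℂ P (ball 0 1) := by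
    refine hE.comp ?_ hmap
    fun_prop
  have hPderiv : ∀ z ∈ ball (0 : ℂ) 1, deriv P z = R * deriv E (R * z) := by
    intro z hz
    have h2 : HasDerivAt E (deriv E (R * z)) ((R : ℂ) * z) :=
      ((hE _ (hmap z hz)).differentiableAt (isOpen_ball.mem_nhds (hmap z hz))).hasDerivAt
    have h3 : HasDerivAt (fun z : ℂ => (R : ℂ) * z) ((R : ℂ) * 1) z :=
      (hasDerivAt_id z).const_mul (R : ℂ)
    have h4 := h2.comp z h3
    rw [mul_one] at h4
    have h5 : deriv P z = deriv E (R * z) * R := h4.deriv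
    rw [h5, mul_comm]
  obtain ⟨a, ha⟩ := Helper21.IM.ps_exists hPd
  have hz := Helper21.IM.ps_zmul (Helper21.IM.ps_deriv ha)
  have hρ0 : 0 ≤ ρ / R := by positivity
  have hρ1 : ρ / R < 1 := (div_lt_one hR).2 h1
  have hpar := Helper21.IM.parseval ha hz hρ0 hρ1
  have hci : CircleIntegrable (fun v => E v * (starRingEnd ℂ) (v * deriv E v)) 0 ρ := by
    refine ContinuousOn.circleIntegrable h0.le ?_
    have hsub : sphere (0 : ℂ) ρ ⊆ ball 0 R := fun z hz => by
      rw [mem_sphere_zero_iff_norm] at hz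
      rw [mem_ball_zero_iff, hz]
      exact h1
    have hd : DifferentiableOn ℂ (deriv E) (ball 0 R) := hE.deriv isOpen_ball
    exact (hE.continuousOn.mono hsub).mul (continuous_star.comp_continuousOn
      (continuousOn_id.mul (hd.continuousOn.mono hsub)))
  rw [Ener_ofRe hci]
  have e : circleAverage (fun v => E v * (starRingEnd ℂ) (v * deriv E v)) 0 ρ =
      circleAverage (fun z => P z * (starRingEnd ℂ) (z * deriv P z)) 0 (ρ / R) := by
    rw [circleAverage_def, circleAverage_def]
    congr 1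
    refine intervalIntegral.integral_congr fun θ _ => ?_
    have h6 : (R : ℂ) * circleMap 0 (ρ / R) θ = circleMap 0 ρ θ := by
      simp only [circleMap, zero_add]
      push_cast
      field_simp
    have h7 : circleMap 0 (ρ / R) θ ∈ ball (0 : ℂ) 1 := by
      rw [mem_ball_zero_iff, norm_circleMap_zero, abs_of_nonneg hρ0]
      exact hρ1
    simp only [hPderiv _ h7]
    rw [hP]
    simp only [h6]
    congr 2
    rw [← h6]
    ring
  rw [e]
  have h8 := Complex.reCLM.hasSum hpar
  refine h8.nonneg fun m => ?_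
  simp only [Function.comp, Complex.reCLM_apply]
  rcases m with _ | m
  · simp
  · rw [if_neg (Nat.succ_ne_zero m), Nat.add_sub_cancel]
    have h9 : a (m + 1) * (starRingEnd ℂ) (((m : ℂ) + 1) * a (m + 1)) * ((ρ / R : ℝ) : ℂ) ^ (2 * (m + 1)) =
        ((((m : ℝ) + 1) * ‖a (m + 1)‖ ^ 2 * (ρ / R) ^ (2 * (m + 1)) : ℝ) : ℂ) := by
      rw [map_mul, map_add, map_one, Complex.conj_natCast]
      have h10 := Complex.mul_conj (a (m + 1))
      rw [Complex.normSq_eq_norm_sq] at h10
      push_cast at h10 ⊢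
      rw [← h10]
      ring
    rw [h9, Complex.ofReal_re]
    positivity

end Pool.Agent.Helper73.LA
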