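import Mathlib

/-!
# Project LA (MP_599705_an): a nonlinear functional of the Bloch potential, pointwise part

`D = f v / v - 1`, `P = f' v - 1`; the functional `psi` of the potential
`u = log |1 + P| - log (1 - q |1 + D|^2)`, `q = 0.42^2`.
-/

set_option autoImplicit false

namespace Pool.Agent.Helper73.LA

open Complex

/-- the value of the extremal potential for the identity: `-log (1 - 0.42^2)` -/
noncomputable def M0 : ℝ := -Real.log (2059 / 2500)

/-- the test function -/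
noncomputable def psi (u : ℝ) : ℝ :=
  M0 + 211 / 200 * (u - M0) + 11 / 200 - 11 / 200 * (2059 / 2500) * Real.exp u -
    71 / 5000 * (Real.exp u - 2500 / 2059) ^ 2

/-- lower bound of the logarithm -/
theorem log_low {z : ℝ} (h0 : -0.024 ≤ z) (h1 : z ≤ 0.1) :
    -z - z ^ 2 / 2 - z ^ 3 / 3 - z ^ 4 / 3 ≤ Real.log (1 - z) := by
  have hz : |z| < 1 := by rw [abs_lt]; constructor <;> linarith
  have h := Real.abs_log_sub_add_sum_range_le hz 5
  simp only [Finset.sum_range_succ, Finset.sum_range_zero] at h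
  norm_num at h
  have h2 := (abs_le.mp h).1
  have h3 : |z| ^ 6 / (1 - |z|) ≤ z ^ 4 * 0.012 := by
    have h4 : |z| ≤ 0.1 := by rw [abs_le]; constructor <;> linarith
    have h5 := abs_nonneg z
    rw [div_le_iff₀ (by linarith)]
    have h6 : |z| ^ 6 = z ^ 4 * |z| ^ 2 := by
      rw [show (6 : ℕ) = 4 + 2 from rfl, pow_add, Even.pow_abs (by decide)]
    rw [h6]
    have h7 : |z| ^ 2 ≤ 0.012 * (1 - |z|) := by nlinarith
    have h8 : (0 : ℝ) ≤ z ^ 4 := by positivity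
    calc z ^ 4 * |z| ^ 2 ≤ z ^ 4 * (0.012 * (1 - |z|)) := mul_le_mul_of_nonneg_left h7 h8
      _ = _ := by ring
  have h9 : z ^ 5 / 5 ≤ z ^ 4 * 0.02 := by
    have h8 : (0 : ℝ) ≤ z ^ 4 := by positivity
    have : z ^ 5 / 5 = z ^ 4 * (z / 5) := by ring
    rw [this]
    exact mul_le_mul_of_nonneg_left (by linarith) h8
  have h8 : (0 : ℝ) ≤ z ^ 4 := by positivity
  linarith

/-- the one-variable inequality -/
theorem one_var {d L : ℝ} (h0 : -0.055 ≤ d) (h1 : d ≤ 0.207)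
    (hL : L = Real.log (1 - 441 / 2059 * (2 * d + d ^ 2))) :
    0 ≤ 4 * (71 / 5000) * ((11 / 200 - (11 / 200 + 7 / 50 * d) *
      (1 - 441 / 2059 * (2 * d + d ^ 2))) + 211 / 200 * L +
      (882 / 2059 + 7 / 50) * d + 3 * (7 / 50) * d ^ 2) -
      (2059 / 2500) ^ 2 * (11 / 200 - (11 / 200 + 7 / 50 * d) *
        (1 - 441 / 2059 * (2 * d + d ^ 2))) ^ 2 := by
  obtain ⟨z, rfl⟩ : ∃ z, d = -0.055 + z := ⟨d + 0.055, by ring⟩
  have hz0 : 0 ≤ z := by linarith
  have hz1 : z ≤ 0.262 := by linarith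
  set Z : ℝ := 441 / 2059 * (2 * (-0.055 + z) + (-0.055 + z) ^ 2) with hZ
  have hl := log_low (z := Z) (by rw [hZ]; nlinarith) (by rw [hZ]; nlinarith)
  rw [← hL] at hl
  have hpos : 0 ≤ (-0.055 + z) ^ 2 * (0.00006515 + 0.0062686 * z - 0.0022921 * z ^ 2 -
      0.0050522 * z ^ 3 - 0.0017245 * z ^ 4 - 0.00032241 * z ^ 5 - 0.000042035 * z ^ 6) := by
    apply mul_nonneg (sq_nonneg _)
    have e1 : z ^ 2 ≤ 0.262 * z := by nlinarith
    have e2 : z ^ 3 ≤ 0.07 * z := by nlinarith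
    have e3 : z ^ 4 ≤ 0.07 * z := by nlinarith [mul_nonneg hz0 hz0, mul_nonneg (mul_nonneg hz0 hz0) hz0]
    have e4 : z ^ 5 ≤ 0.07 * z := by
      nlinarith [mul_nonneg hz0 hz0, mul_nonneg (mul_nonneg hz0 hz0) hz0,
        mul_nonneg (mul_nonneg (mul_nonneg hz0 hz0) hz0) hz0]
    have e5 : z ^ 6 ≤ 0.07 * z := by
      have : 0 ≤ z ^ 5 := by positivity
      nlinarith
    linarith
  have hlow : (-0.055 + z) ^ 2 * (0.00006515 + 0.0062686 * z - 0.0022921 * z ^ 2 -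
      0.0050522 * z ^ 3 - 0.0017245 * z ^ 4 - 0.00032241 * z ^ 5 - 0.000042035 * z ^ 6) ≤
      4 * (71 / 5000) * ((11 / 200 - (11 / 200 + 7 / 50 * (-0.055 + z)) * (1 - Z)) + 211 / 200 *
        (-Z - Z ^ 2 / 2 - Z ^ 3 / 3 - Z ^ 4 / 3) +
      (882 / 2059 + 7 / 50) * (-0.055 + z) + 3 * (7 / 50) * (-0.055 + z) ^ 2) -
      (2059 / 2500) ^ 2 * (11 / 200 - (11 / 200 + 7 / 50 * (-0.055 + z)) * (1 - Z)) ^ 2 := by
    rw [hZ]
    have hz2 : 0 ≤ z ^ 2 := by positivity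
    have hz3 : 0 ≤ z ^ 3 := by positivity
    have hz4 : 0 ≤ z ^ 4 := by positivity
    have hz5 : 0 ≤ z ^ 5 := by positivity
    have hz6 : 0 ≤ z ^ 6 := by positivity
    have key : 0 ≤ (-0.055 + z) ^ 2 * (437741769063134018901951 / 101257459996400000000000000000000 * z ^ 0 + 164264269313459112793 / 253143649991000000000000000000 * z ^ 1 + 58650612537248032361 / 2531436499910000000000000000 * z ^ 2 + 113737596446391479 / 3164295624887500000000000 * z ^ 3 + 5386438873721561 / 63285912497750000000000 * z ^ 4 + 17393096991 / 5062872999820000000 * z ^ 5 + 12445428737 / 50628729998200000000 * z ^ 6) := by positivity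
    refine le_of_sub_nonneg (key.trans_eq ?_)
    ring
  linarith

/-- the discriminant: `s = |k0 + c D|`, `x = Re D`, `d = |1 + D| - 1` -/
theorem disc {d x s L : ℝ} (h0 : -0.055 ≤ d) (h1 : d ≤ 0.207)
    (hL : L = Real.log (1 - 441 / 2059 * (2 * d + d ^ 2)))
    (hs : s ^ 2 = (11 / 200) ^ 2 + 2 * (11 / 200) * (7 / 50) * x +
      (7 / 50) ^ 2 * (2 * d + d ^ 2 - 2 * x))
    (hs0 : 11 / 200 + 7 / 50 * d ≤ s) (hs1 : s ≤ 7 / 50 - 11 / 200 + 7 / 50 * (1 + d)) :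
    0 ≤ 4 * (71 / 5000) * ((11 / 200 - s * (1 - 441 / 2059 * (2 * d + d ^ 2))) + 211 / 200 * L +
      (882 / 2059 + 7 / 50) * x + 3 * (7 / 50) * (2 * d + d ^ 2 - 2 * x)) -
      (2059 / 2500) ^ 2 * (11 / 200 - s * (1 - 441 / 2059 * (2 * d + d ^ 2))) ^ 2 := by
  have h := one_var h0 h1 hL
  have hx : x = ((11 / 200) ^ 2 + (7 / 50) ^ 2 * (2 * d + d ^ 2) - s ^ 2) / 0.0238 := by
    rw [hs]
    ring
  set s0 : ℝ := 11 / 200 + 7 / 50 * d with hs0'
  set w : ℝ := 1 - 441 / 2059 * (2 * d + d ^ 2) with hw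
  have e : 4 * (71 / 5000) * ((11 / 200 - s * w) + 211 / 200 * L +
      (882 / 2059 + 7 / 50) * x + 3 * (7 / 50) * (2 * d + d ^ 2 - 2 * x)) -
      (2059 / 2500) ^ 2 * (11 / 200 - s * w) ^ 2 =
      (4 * (71 / 5000) * ((11 / 200 - s0 * w) + 211 / 200 * L +
      (882 / 2059 + 7 / 50) * d + 3 * (7 / 50) * d ^ 2) -
      (2059 / 2500) ^ 2 * (11 / 200 - s0 * w) ^ 2) +
      (s - s0) * ((4 * (71 / 5000) * (23500 / 2059) - (2059 / 2500) ^ 2 * w ^ 2) * (s + s0) +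
        11134291 / 625000000 * w) := by
    rw [hx, hs0']
    ring
  have h2 : 0 ≤ (4 * (71 / 5000) * (23500 / 2059) - (2059 / 2500) ^ 2 * w ^ 2) * (s + s0) +
        11134291 / 625000000 * w := by
    have hw0 : 0 < w := by rw [hw]; nlinarith
    have hss : 0 ≤ s + s0 := by rw [hs0'] at hs0 ⊢; linarith
    have hss1 : s + s0 ≤ 2 * (7 / 50) * (1 + d) := by rw [hs0']; linarith
    rcases le_or_gt 0 (4 * (71 / 5000) * (23500 / 2059) - (2059 / 2500) ^ 2 * w ^ 2) with hA | hA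
    · have := mul_nonneg hA hss
      linarith
    · have h3 := mul_le_mul_of_nonpos_left hss1 hA.le
      have h4 : 0 ≤ (4 * (71 / 5000) * (23500 / 2059) - (2059 / 2500) ^ 2 * w ^ 2) *
          (2 * (7 / 50) * (1 + d)) + 11134291 / 625000000 * w := by
        obtain ⟨z, hz⟩ : ∃ z, d = -0.055 + z := ⟨d + 0.055, by ring⟩
        have hz0 : 0 ≤ z := by linarith
        have hz1 : z ≤ 0.262 := by linarith
        rw [hw, hz]
        have hz2 : 0 ≤ z ^ 2 := by positivity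
        have hz3 : 0 ≤ z ^ 3 := by positivity
        have e2 : z ^ 2 ≤ 1 := by nlinarith
        have e4 : z ^ 4 ≤ z ^ 2 := by
          have := mul_le_mul_of_nonneg_left e2 hz2
          have e : z ^ 4 = z ^ 2 * z ^ 2 := by ring
          linarith
        have e5 : z ^ 5 ≤ z ^ 3 := by
          have := mul_le_mul_of_nonneg_left e2 hz3
          have e : z ^ 5 = z ^ 3 * z ^ 2 := by ring
          linarith
        ring_nf
        linarith
      linarith
  rw [e]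
  have h3 := mul_nonneg (sub_nonneg.2 hs0) h2
  linarith

/-- the pointwise inequality -/
theorem pt {D Q : ℂ} (h0 : 0.945 ≤ ‖1 + D‖) (h1 : ‖1 + D‖ ≤ 1.207) (hQ : 1 + Q ≠ 0) :
    psi (Real.log ‖1 + Q‖ - Real.log (1 - 441 / 2500 * ‖1 + D‖ ^ 2)) ≤
      M0 + 211 / 200 * Real.log ‖1 + Q‖ - 11 / 200 * Q.re + 882 / 2059 * D.re -
        7 / 50 * ((D * (starRingEnd ℂ) Q).re - 3 * ‖D‖ ^ 2) := by
  set d : ℝ := ‖1 + D‖ - 1 with hd
  set s : ℝ := ‖((11 / 200 : ℝ) : ℂ) + ((7 / 50 : ℝ) : ℂ) * D‖ with hs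
  set W : ℝ := ‖1 + Q‖ with hW
  have hW0 : 0 < W := norm_pos_iff.2 hQ
  have hn : ‖1 + D‖ ^ 2 = 1 + 2 * D.re + ‖D‖ ^ 2 := by
    rw [← Complex.normSq_eq_norm_sq, ← Complex.normSq_eq_norm_sq, Complex.normSq_apply,
      Complex.normSq_apply]
    simp only [Complex.add_re, Complex.one_re, Complex.add_im, Complex.one_im]
    ring
  have hy : ‖D‖ ^ 2 = 2 * d + d ^ 2 - 2 * D.re := by
    rw [hd]
    linear_combination -hn
  have hs2 : s ^ 2 = (11 / 200) ^ 2 + 2 * (11 / 200) * (7 / 50) * D.re +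
      (7 / 50) ^ 2 * (2 * d + d ^ 2 - 2 * D.re) := by
    rw [← hy, hs, ← Complex.normSq_eq_norm_sq, ← Complex.normSq_eq_norm_sq, Complex.normSq_apply,
      Complex.normSq_apply]
    simp only [Complex.add_re, Complex.ofReal_re, Complex.re_ofReal_mul, Complex.add_im,
      Complex.ofReal_im, Complex.im_ofReal_mul]
    ring
  have hc1 : ‖((7 / 50 : ℝ) : ℂ) * (1 + D)‖ = 7 / 50 * (1 + d) := by
    rw [norm_mul, Complex.norm_real, Real.norm_of_nonneg (by norm_num), hd]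
    ring
  have hc2 : ‖((7 / 50 - 11 / 200 : ℝ) : ℂ)‖ = 7 / 50 - 11 / 200 := by
    rw [Complex.norm_real, Real.norm_of_nonneg (by norm_num)]
  have hs0 : 11 / 200 + 7 / 50 * d ≤ s := by
    have h := norm_add_le (((11 / 200 : ℝ) : ℂ) + ((7 / 50 : ℝ) : ℂ) * D)
      ((7 / 50 - 11 / 200 : ℝ) : ℂ)
    have e : ((11 / 200 : ℝ) : ℂ) + ((7 / 50 : ℝ) : ℂ) * D + ((7 / 50 - 11 / 200 : ℝ) : ℂ) =
        ((7 / 50 : ℝ) : ℂ) * (1 + D) := by
      push_cast
      ring
    rw [e, hc1, hc2] at h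
    linarith
  have hs1 : s ≤ 7 / 50 - 11 / 200 + 7 / 50 * (1 + d) := by
    have h := norm_sub_le (((7 / 50 : ℝ) : ℂ) * (1 + D)) ((7 / 50 - 11 / 200 : ℝ) : ℂ)
    have e : ((7 / 50 : ℝ) : ℂ) * (1 + D) - ((7 / 50 - 11 / 200 : ℝ) : ℂ) =
        ((11 / 200 : ℝ) : ℂ) + ((7 / 50 : ℝ) : ℂ) * D := by
      push_cast
      ring
    rw [e, hc1, hc2] at h
    linarith
  have hdisc := disc (d := d) (x := D.re) (s := s) (by rw [hd]; linarith) (by rw [hd]; linarith)
    rfl hs2 hs0 hs1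
  have hw0 : 0 < 1 - 441 / 2059 * (2 * d + d ^ 2) := by
    have h5 : d ≤ 0.207 := by rw [hd]; linarith
    have h6 : -0.055 ≤ d := by rw [hd]; linarith
    nlinarith
  have hn2 : 1 - 441 / 2500 * ‖1 + D‖ ^ 2 = 2059 / 2500 * (1 - 441 / 2059 * (2 * d + d ^ 2)) := by
    rw [hd]
    ring
  set w : ℝ := 1 - 441 / 2059 * (2 * d + d ^ 2) with hw
  rw [hn2, Real.log_mul (by norm_num) hw0.ne']
  -- `t = exp u`
  set u : ℝ := Real.log W - (Real.log (2059 / 2500) + Real.log w) with hu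
  have ht : Real.exp u = W / (2059 / 2500 * w) := by
    rw [hu, Real.exp_sub, Real.exp_add, Real.exp_log hW0, Real.exp_log (by norm_num),
      Real.exp_log hw0]
  set t : ℝ := Real.exp u with ht'
  have hWt : W = 2059 / 2500 * w * t := by
    rw [ht]
    field_simp
  have hre : ((((11 / 200 : ℝ) : ℂ) + ((7 / 50 : ℝ) : ℂ) * D) * (starRingEnd ℂ) (1 + Q)).re ≤
      s * W := by
    refine (Complex.re_le_norm _).trans ?_
    rw [norm_mul, RCLike.norm_conj]
  have hre2 : ((((11 / 200 : ℝ) : ℂ) + ((7 / 50 : ℝ) : ℂ) * D) * (starRingEnd ℂ) (1 + Q)).re =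
      11 / 200 * (1 + Q.re) + 7 / 50 * D.re + 7 / 50 * (D * (starRingEnd ℂ) Q).re := by
    simp only [map_add, map_one, Complex.mul_re, Complex.add_re, Complex.ofReal_re,
      Complex.add_im, Complex.ofReal_im, Complex.im_ofReal_mul,
      Complex.one_re, Complex.one_im, Complex.conj_re, Complex.conj_im]
    ring
  rw [hre2, hWt] at hre
  unfold psi
  rw [← ht']
  have hM : M0 = - Real.log (2059 / 2500) := rfl
  rw [← hy] at hdisc
  set L : ℝ := Real.log w with hL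
  have hsq : 0 ≤ (2 * (71 / 5000) * (t - 2500 / 2059) + 2059 / 2500 * (11 / 200 - s * w)) ^ 2 :=
    sq_nonneg _
  have hfin : 0 ≤ 71 / 5000 * (t - 2500 / 2059) ^ 2 + 2059 / 2500 * (11 / 200 - s * w) *
      (t - 2500 / 2059) + ((11 / 200 - s * w) + 211 / 200 * L + (882 / 2059 + 7 / 50) * D.re +
        3 * (7 / 50) * ‖D‖ ^ 2) := by
    ring_nf at hsq hdisc ⊢
    linarith
  rw [hu, hM]
  ring_nf at hfin hre ⊢
  linarith

end Pool.Agent.Helper73.LA
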