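import Pool.Agent.Helper54.LN.Pot
import Pool.Agent.Helper73.LA.Pt
import Pool.Agent.Helper73.LA.Ener

/-!
# Project LA (MP_599705_an): a nonlinear functional of the Bloch potential

For the potential `u = P F (f v)` on the circle `|v| = 0.42` the mean of `psi u` is at most
`M0 = -log (1 - 0.42^2)`, its value for the identity.
-/

set_option autoImplicit false

namespace Pool.Agent.Helper73.LA

open Complex Metric Set MeasureTheory
open Pool.Agent.Helper91.LC
open Pool.Agent.Helper54.LN (sqrt_pos4 f_mem ball_042 f_ge_042 f_le_042 pot norm_042)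

/-- `f v = v + v ^ 3 E v` -/
theorem exists_E {F f : ℂ → ℂ} (hG : Good F) (hI : Inv F f) : ∃ E : ℂ → ℂ,
    DifferentiableOn ℂ E (ball 0 (√3 / 4)) ∧
    ∀ v ∈ ball (0 : ℂ) (√3 / 4), f v = v + v ^ 3 * E v := by
  obtain ⟨b3, b4, M, -, -, hM, -, hF⟩ := Spec.coeffs hG
  have hρ : (0 : ℝ) < √3 / 4 := sqrt_pos4
  set B : Set ℂ := ball (0 : ℂ) (√3 / 4) with hB
  have hBo : IsOpen B := isOpen_ball
  have h0 : (0 : ℂ) ∈ B := mem_ball_self hρ
  have hnhds : B ∈ nhds (0 : ℂ) := hBo.mem_nhds h0
  have hmaps : ∀ v ∈ B, f v ∈ ball (0 : ℂ) 1 := fun v hv => f_mem hI hv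
  have hfs : ∀ v, f v = v * dslope f 0 v := by
    intro v
    have := sub_smul_dslope f 0 v
    rw [hI.zero, sub_zero, sub_zero, smul_eq_mul] at this
    exact this.symm
  have hs : DifferentiableOn ℂ (dslope f 0) B := (Complex.differentiableOn_dslope hnhds).mpr hI.diff
  have hMf : DifferentiableOn ℂ (fun v => M (f v)) B := hM.comp hI.diff hmaps
  refine ⟨fun v => dslope f 0 v ^ 3 * (-b3 - b4 * f v - f v ^ 2 * M (f v)), ?_, ?_⟩
  · exact (hs.pow 3).mul (((differentiableOn_const (-b3)).sub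
      ((differentiableOn_const b4).mul hI.diff)).sub ((hI.diff.pow 2).mul hMf))
  · intro v hv
    have h1 := hF (f v) (hmaps v hv)
    rw [hI.eq v hv] at h1
    have h4 : f v ^ 3 = v ^ 3 * dslope f 0 v ^ 3 := by
      rw [← mul_pow, ← hfs v]
    beta_reduce
    linear_combination -h1 + (-b3 - b4 * f v - f v ^ 2 * M (f v)) * h4

theorem fun_average {F f : ℂ → ℂ} (hG : Good F) (hI : Inv F f) :
    Real.circleAverage (fun v => psi (P F (f v))) 0 0.42 ≤ M0 := by
  obtain ⟨h, hd, h0, -, -, hexp⟩ := Spec.exists_log hG hI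
  obtain ⟨E, hE, hfE⟩ := exists_E hG hI
  have hlt := Pool.Agent.Helper91.LC.R88FLe.lt_sqrt3
  have hr : (0 : ℝ) < 0.42 := by norm_num
  have hrR : (0.42 : ℝ) < √3 / 4 := by linarith
  set B : Set ℂ := ball (0 : ℂ) (√3 / 4) with hB
  have hBo : IsOpen B := isOpen_ball
  have hB0 : (0 : ℂ) ∈ B := mem_ball_self sqrt_pos4
  have hE' : DifferentiableOn ℂ (deriv E) B := hE.deriv hBo
  have hball : ∀ v ∈ sphere (0 : ℂ) |0.42|, ‖v‖ = 0.42 ∧ v ∈ B := by
    intro v hv
    rw [mem_sphere_zero_iff_norm, abs_of_pos hr] at hv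
    exact ⟨hv, ball_042 hv⟩
  have hball' : ∀ v ∈ sphere (0 : ℂ) 0.42, ‖v‖ = 0.42 ∧ v ∈ B := by
    intro v hv
    apply hball
    rwa [abs_of_pos hr]
  -- derivative of `f`
  have hder : ∀ v ∈ B, deriv f v = 1 + (3 * v ^ 2 * E v + v ^ 3 * deriv E v) := by
    intro v hv
    have h1 : HasDerivAt E (deriv E v) v :=
      ((hE v hv).differentiableAt (hBo.mem_nhds hv)).hasDerivAt
    have h2 : HasDerivAt (fun v : ℂ => v ^ 3) (3 * v ^ 2) v := by
      simpa using hasDerivAt_pow 3 v
    have h3 := (hasDerivAt_id v).add (h2.mul h1)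
    have h4 : f =ᶠ[nhds v] fun v => v + v ^ 3 * E v := by
      filter_upwards [hBo.mem_nhds hv] with w hw using hfE w hw
    rw [h4.deriv_eq]
    exact h3.deriv
  -- the holomorphic function
  set G : ℂ → ℂ := fun v => ((211 / 200 : ℝ) : ℂ) * h v -
    ((11 / 200 : ℝ) : ℂ) * (3 * v ^ 2 * E v + v ^ 3 * deriv E v) +
    ((882 / 2059 : ℝ) : ℂ) * (v ^ 2 * E v) with hGd
  have hGdiff : DifferentiableOn ℂ G B := by
    have hp2 : DifferentiableOn ℂ (fun v : ℂ => v ^ 2) B := by fun_prop
    have hp3 : DifferentiableOn ℂ (fun v : ℂ => v ^ 3) B := by fun_prop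
    have hp4 : DifferentiableOn ℂ (fun v : ℂ => 3 * v ^ 2) B := by fun_prop
    exact ((hd.const_mul _).sub (((hp4.mul hE).add (hp3.mul hE')).const_mul _)).add
      ((hp2.mul hE).const_mul _)
  have hG0 : G 0 = 0 := by simp [hGd, h0]
  set en : ℂ → ℝ := fun v => (E v * (starRingEnd ℂ) (v * deriv E v)).re with hen
  -- pointwise bound
  have hpt : ∀ v ∈ sphere (0 : ℂ) |0.42|,
      psi (P F (f v)) ≤ M0 + (G v).re - 7 / 50 * 0.42 ^ 4 * en v := by
    intro v hv
    obtain ⟨hv1, hv2⟩ := hball v hv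
    have hv0 : v ≠ 0 := by
      rintro rfl
      rw [norm_zero] at hv1
      norm_num at hv1
    set D : ℂ := v ^ 2 * E v with hD
    set Q : ℂ := 3 * v ^ 2 * E v + v ^ 3 * deriv E v with hQ
    have e1 : f v = v * (1 + D) := by
      rw [hfE v hv2, hD]
      ring
    have hnf : ‖f v‖ = 0.42 * ‖1 + D‖ := by rw [e1, norm_mul, hv1]
    have e2 : 1 + Q = deriv f v := (hder v hv2).symm
    have hQ0 : 1 + Q ≠ 0 := by
      rw [e2, ← hexp v hv2]
      exact Complex.exp_ne_zero _
    have h1 := f_ge_042 hG hI hv1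
    have h2 := f_le_042 hG hI hv1
    rw [hnf] at h1 h2
    have hp := pt (D := D) (Q := Q) (by linarith) (by linarith) hQ0
    have e3 : P F (f v) = Real.log ‖1 + Q‖ - Real.log (1 - 441 / 2500 * ‖1 + D‖ ^ 2) := by
      rw [Spec.P_eq hG hI hv2, e2, hnf]
      congr 2
      ring
    have e4 : Real.log ‖1 + Q‖ = (h v).re := by
      rw [e2, ← hexp v hv2, Complex.norm_exp, Real.log_exp]
    have e5 : (G v).re = 211 / 200 * (h v).re - 11 / 200 * Q.re + 882 / 2059 * D.re := by
      simp only [hGd, Complex.add_re, Complex.sub_re]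
      rw [Complex.re_ofReal_mul, Complex.re_ofReal_mul, Complex.re_ofReal_mul, hQ, hD,
        Complex.add_re]
    have e6 : (D * (starRingEnd ℂ) Q).re - 3 * ‖D‖ ^ 2 = 0.42 ^ 4 * en v := by
      have e7 : D * (starRingEnd ℂ) Q = ((3 * ‖D‖ ^ 2 : ℝ) : ℂ) +
          ((0.42 ^ 4 : ℝ) : ℂ) * (E v * (starRingEnd ℂ) (v * deriv E v)) := by
        have e8 : Q = 3 * D + v ^ 2 * (v * deriv E v) := by
          rw [hQ, hD]
          ring
        have e9 : D * (starRingEnd ℂ) D = ((‖D‖ ^ 2 : ℝ) : ℂ) := by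
          rw [Complex.mul_conj, Complex.normSq_eq_norm_sq]
        have e10 : v ^ 2 * (starRingEnd ℂ) (v ^ 2) = ((0.42 ^ 4 : ℝ) : ℂ) := by
          rw [Complex.mul_conj, Complex.normSq_eq_norm_sq, norm_pow, hv1]
          norm_num
        have e11 : (starRingEnd ℂ) Q = 3 * (starRingEnd ℂ) D +
            (starRingEnd ℂ) (v ^ 2) * (starRingEnd ℂ) (v * deriv E v) := by
          have e13 : (starRingEnd ℂ) (3 : ℂ) = 3 := Complex.conj_ofNat 3
          rw [e8, map_add, map_mul (starRingEnd ℂ) 3 D, map_mul (starRingEnd ℂ) (v ^ 2) (v * deriv E v), e13]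
        rw [e11]
        have e12 : D = v ^ 2 * E v := rfl
        calc D * (3 * (starRingEnd ℂ) D + (starRingEnd ℂ) (v ^ 2) *
              (starRingEnd ℂ) (v * deriv E v)) =
            3 * (D * (starRingEnd ℂ) D) + (v ^ 2 * (starRingEnd ℂ) (v ^ 2)) *
              (E v * (starRingEnd ℂ) (v * deriv E v)) := by rw [e12]; ring
          _ = _ := by
            rw [e9, e10]
            push_cast
            ring
      rw [e7, Complex.add_re, Complex.ofReal_re, Complex.re_ofReal_mul]
      ring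
    rw [e3]
    rw [e6, e4] at hp
    rw [e4, e5]
    linarith
  have hfc : ContinuousOn f (sphere (0 : ℂ) 0.42) := fun v hv =>
    (hI.diff.continuousOn.mono fun w hw => (hball' w hw).2) v hv
  have hhc : ContinuousOn h (sphere (0 : ℂ) 0.42) := fun v hv =>
    (hd.continuousOn.mono fun w hw => (hball' w hw).2) v hv
  have hGc : ContinuousOn G (sphere (0 : ℂ) 0.42) := fun v hv =>
    (hGdiff.continuousOn.mono fun w hw => (hball' w hw).2) v hv
  have hEc : ContinuousOn E (sphere (0 : ℂ) 0.42) := fun v hv =>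
    (hE.continuousOn.mono fun w hw => (hball' w hw).2) v hv
  have hEc' : ContinuousOn (deriv E) (sphere (0 : ℂ) 0.42) := fun v hv =>
    (hE'.continuousOn.mono fun w hw => (hball' w hw).2) v hv
  have hPc : ContinuousOn (fun v => P F (f v)) (sphere (0 : ℂ) 0.42) := by
    have h3 : ContinuousOn (fun v => (h v).re - Real.log (1 - ‖f v‖ ^ 2)) (sphere (0 : ℂ) 0.42) := by
      refine (Complex.continuous_re.comp_continuousOn hhc).sub (ContinuousOn.log ?_ ?_)
      · exact continuousOn_const.sub (hfc.norm.pow 2)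
      · intro v hv
        have h4 := f_mem hI (hball' v hv).2
        rw [mem_ball_zero_iff] at h4
        have h5 := norm_nonneg (f v)
        have : 0 < 1 - ‖f v‖ ^ 2 := by nlinarith
        exact this.ne'
    refine h3.congr fun v hv => ?_
    simp only
    rw [Spec.P_eq hG hI (hball' v hv).2, ← hexp v (hball' v hv).2, Complex.norm_exp,
      Real.log_exp]
  have hpsi : Continuous psi := by
    unfold psi
    fun_prop
  have hec : ContinuousOn en (sphere (0 : ℂ) 0.42) :=
    Complex.continuous_re.comp_continuousOn (hEc.mul (continuous_star.comp_continuousOn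
      (continuousOn_id.mul hEc')))
  have i1 : CircleIntegrable (fun v => psi (P F (f v))) 0 0.42 :=
    (hpsi.comp_continuousOn hPc).circleIntegrable hr.le
  have i2 : CircleIntegrable (fun v => M0 + (G v).re) 0 0.42 :=
    (continuousOn_const.add (Complex.continuous_re.comp_continuousOn hGc)).circleIntegrable hr.le
  have i3 : CircleIntegrable (fun v => 7 / 50 * 0.42 ^ 4 * en v) 0 0.42 :=
    (continuousOn_const.mul hec).circleIntegrable hr.le
  have i4 : CircleIntegrable (fun v => (G v).re) 0 0.42 :=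
    (Complex.continuous_re.comp_continuousOn hGc).circleIntegrable hr.le
  have i5 : CircleIntegrable (fun _ : ℂ => M0) 0 0.42 := continuousOn_const.circleIntegrable hr.le
  have i6 : CircleIntegrable G 0 0.42 := hGc.circleIntegrable hr.le
  refine (Real.circleAverage_mono i1 (i2.sub i3) hpt).trans ?_
  rw [Real.circleAverage_sub i2 i3]
  have m1 : Real.circleAverage (fun v => M0 + (G v).re) 0 0.42 = M0 := by
    have h4 := Real.circleAverage_fun_add i5 i4
    rw [h4, Real.circleAverage_const]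
    have h5 := ContinuousLinearMap.circleAverage_comp_comm Complex.reCLM i6
    have h6 : Real.circleAverage (fun v => (G v).re) 0 0.42 = (Real.circleAverage G 0 0.42).re := h5
    rw [h6, Pool.Agent.Helper42.LC.mean_holo hr (hGdiff.mono (closedBall_subset_ball hrR)), hG0]
    simp
  have m2 : 0 ≤ Real.circleAverage (fun v => 7 / 50 * 0.42 ^ 4 * en v) 0 0.42 := by
    have h8 := Real.circleAverage_fun_smul (𝕜 := ℝ) (a := (7 / 50 * 0.42 ^ 4 : ℝ)) (c := (0 : ℂ))
      (R := 0.42) (f := en)
    simp only [smul_eq_mul] at h8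
    rw [h8]
    have := energy_nonneg hr hrR hE
    positivity
  rw [m1]
  linarith

/-- **The functional inequality** on the circle of radius `0.42`. -/
theorem psi_int {F f : ℂ → ℂ} (hG : Good F) (hI : Inv F f) :
    ∫ θ in (0 : ℝ)..(2 * Real.pi), psi (pot F f θ) ≤ 2 * Real.pi * M0 := by
  have h := fun_average hG hI
  rw [Real.circleAverage_def, smul_eq_mul] at h
  have h1 : ∀ θ : ℝ, P F (f (circleMap 0 0.42 θ)) = pot F f θ := by
    intro θ
    unfold pot
    congr 2
    rw [circleMap, zero_add]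
    norm_num
  simp only [h1] at h
  have hpi := Real.pi_pos
  rw [inv_mul_le_iff₀ (by positivity)] at h
  exact h

end Pool.Agent.Helper73.LA
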