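import Pool.Agent.Helper73.LA.Fun
import Pool.Agent.Helper91.LC.R.Bonk

/-!
# Project LA (MP_599705_an): monotonicity of `psi` and an upper bound of the potential
-/

set_option autoImplicit false

namespace Pool.Agent.Helper73.LA

open Complex Metric Set
open Pool.Agent.Helper91.LC
open Pool.Agent.Helper54.LN (sqrt_pos4 f_mem ball_042 f_ge_042 f_le_042 pot norm_042)

theorem exp_le_16 : Real.exp 1.6 ≤ 4.96 := by
  have h2 : Real.exp 1.6 = (Real.exp 1 ^ 8) ^ (1 / 5 : ℝ) := by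
    rw [← Real.exp_nat_mul, ← Real.exp_mul]
    norm_num
  rw [h2]
  have h3 : Real.exp 1 < 2.7182818286 := Real.exp_one_lt_d9
  have h4 : (4.96 : ℝ) = (4.96 ^ 5) ^ (1 / 5 : ℝ) := by
    rw [← Real.rpow_natCast, ← Real.rpow_mul (by norm_num)]
    norm_num
  rw [h4]
  refine Real.rpow_le_rpow (by positivity) ?_ (by norm_num)
  calc Real.exp 1 ^ 8 ≤ 2.7182818286 ^ 8 := pow_le_pow_left₀ (Real.exp_pos _).le h3.le 8
    _ ≤ 4.96 ^ 5 := by norm_num

/-- `psi` is increasing up to `1.6` -/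
theorem psi_mono : MonotoneOn psi (Iic 1.6) := by
  intro u hu v hv huv
  rw [mem_Iic] at hu hv
  have h1 : Real.exp v ≤ 4.96 := (Real.exp_le_exp.2 hv).trans exp_le_16
  have h2 : Real.exp u ≤ Real.exp v := Real.exp_le_exp.2 huv
  have h3 : Real.exp v - Real.exp u ≤ Real.exp v * (v - u) := by
    have h := Real.add_one_le_exp (u - v)
    have e : Real.exp u = Real.exp v * Real.exp (u - v) := by
      rw [← Real.exp_add]
      ring_nf
    rw [e]
    nlinarith [Real.exp_pos v]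
  have hp := Real.exp_pos u
  set a := Real.exp u
  set b := Real.exp v
  have hba : 0 ≤ b - a := by linarith
  have hb : 0 < b := by linarith
  have h4 : (b - a) * (a + b) ≤ (b - a) * (2 * b) := by
    apply mul_le_mul_of_nonneg_left _ hba
    linarith
  -- total slope
  have h5 : 11 / 200 * (2059 / 2500) * (b - a) + 71 / 5000 * ((b - 2500 / 2059) ^ 2 -
      (a - 2500 / 2059) ^ 2) ≤ (b - a) * 0.17 := by
    have e : 11 / 200 * (2059 / 2500) * (b - a) + 71 / 5000 * ((b - 2500 / 2059) ^ 2 -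
      (a - 2500 / 2059) ^ 2) = (b - a) * (11 / 200 * (2059 / 2500) + 71 / 5000 * (a + b -
        2 * (2500 / 2059))) := by ring
    rw [e]
    apply mul_le_mul_of_nonneg_left _ hba
    linarith
  have h6 : (b - a) * 0.17 ≤ 0.8432 * (v - u) := by
    have h7 : b * (v - u) ≤ 4.96 * (v - u) := mul_le_mul_of_nonneg_right h1 (by linarith)
    linarith
  unfold psi
  change M0 + 211 / 200 * (u - M0) + 11 / 200 - 11 / 200 * (2059 / 2500) * a -
    71 / 5000 * (a - 2500 / 2059) ^ 2 ≤ M0 + 211 / 200 * (v - M0) + 11 / 200 -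
      11 / 200 * (2059 / 2500) * b - 71 / 5000 * (b - 2500 / 2059) ^ 2
  linarith

theorem log_025 : -1.4 ≤ Real.log 0.25 := by
  rw [show (0.25 : ℝ) = (2 ^ 2)⁻¹ by norm_num, Real.log_inv, Real.log_pow]
  have := Real.log_two_lt_d9
  push_cast
  linarith

/-- the potential is at most `1.4` on the circle -/
theorem pot_le {F f : ℂ → ℂ} (hG : Good F) (hI : Inv F f) (θ : ℝ) : pot F f θ ≤ 1.4 := by
  unfold pot
  set v : ℂ := (0.42 : ℂ) * exp (θ * I)
  have hv : ‖v‖ = 0.42 := norm_042 θ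
  have h1 := f_le_042 hG hI hv
  have hb := Pool.Agent.Helper91.LC.R88FLe.sqrt3_lt
  have hb2 := Pool.Agent.Helper91.LC.R88FLe.lt_sqrt3
  have h0 : 0 < √3 := by positivity
  have hs3 : √3 * √3 = 3 := Real.mul_self_sqrt (by norm_num)
  have hx1 : ‖f v‖ < 1 / √3 := by
    rw [lt_div_iff₀ h0]
    nlinarith [norm_nonneg (f v)]
  have h2 := Spec.bonk hG hx1
  set r : ℝ := ‖f v‖ with hr
  have hr0 : 0 ≤ r := norm_nonneg _
  set x : ℝ := r / √3 with hx
  have hx0 : 0 ≤ x := by positivity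
  have hx3 : √3 * r = 3 * x := by
    rw [hx]
    field_simp
    nlinarith
  have hxl : x ≤ 0.2925 := by
    rw [hx, div_le_iff₀ h0]
    nlinarith
  rw [hx3] at h2
  have h3 : 0.34 ≤ (1 - 3 * x) / (1 - x) ^ 3 := by
    rw [le_div_iff₀ (by apply pow_pos; linarith)]
    nlinarith [mul_nonneg hx0 (sub_nonneg.2 hxl), mul_nonneg (mul_nonneg hx0 hx0) hx0,
      mul_nonneg hx0 hx0]
  have h4 : 0.34 ≤ ‖deriv F (f v)‖ := (h3.trans h2).trans (Complex.re_le_norm _)
  have h5 : 0.743 ≤ 1 - r ^ 2 := by nlinarith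
  have h6 : 0.25 ≤ ‖deriv F (f v)‖ * (1 - r ^ 2) := by nlinarith
  have h7 := Real.log_le_log (by norm_num) h6
  have h8 := log_025
  show - Real.log (‖deriv F (f v)‖ * (1 - ‖f v‖ ^ 2)) ≤ 1.4
  rw [← hr]
  linarith

/-- lower bounds of the potential give lower bounds of `psi` -/
theorem psi_le_of_le {F f : ℂ → ℂ} (hG : Good F) (hI : Inv F f) {g θ : ℝ}
    (h : g ≤ pot F f θ) : psi g ≤ psi (pot F f θ) := by
  have h1 := pot_le hG hI θ
  exact psi_mono (mem_Iic.2 (by linarith)) (mem_Iic.2 (by linarith)) h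

theorem psi_continuous : Continuous psi := by
  unfold psi
  fun_prop

end Pool.Agent.Helper73.LA
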